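import Mathlib
import Pool.Agent.Work.MP_950ea9_nt.Defs
import Pool.Agent.Work.MP_950ea9_nt.Final

/-!
MP_950ea9_nt, Q1 (full answer, positive): for every prime `p > 3` and every `r ≥ 1`,
`S(p,r) ≡ p^r + (7/6) B_{p-3} p^(r+3) (mod p^(r+4))`.

`S N` is the sum of the problem with `p^r` replaced by `N`, and `CongModPow` the congruence relation
between rational numbers fixed in the problem; both are in `Pool/Agent/Work/MP_950ea9_nt/Defs.lean`.
`bernoulli` is Mathlib's Bernoulli number with `B_1 = -1/2` (so `∑_{k ≤ n} C(n+1,k) B_k = 0`, `n ≥ 1`).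
-/

namespace Pool.Agent.Results.MP_950ea9_nt.SunSupercongruence

open Pool.Agent.Work.MP_950ea9_nt

theorem result : ∀ p : ℕ, p.Prime → 3 < p → ∀ r : ℕ, 1 ≤ r →
    CongModPow p (r + 4) (S (p ^ r))
      ((p : ℚ) ^ r + 7 / 6 * bernoulli (p - 3) * (p : ℚ) ^ (r + 3)) :=
  main

end Pool.Agent.Results.MP_950ea9_nt.SunSupercongruence
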